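import Mathlib
import Pool.Agent.Y506.PV.Stm

set_option autoImplicit false

namespace Pool.Agent.Y388.PV

open Pool.Agent.Y506.PV
open MeasureTheory Set Filter Topology

/-- the radial density -/
noncomputable def Wr (p : ℝ) (n : ℕ) (r : ℝ) : ℝ := p * r ^ ((n : ℝ) + p - 1) * Real.exp (-(r ^ p))

theorem Wr_nonneg {p : ℝ} (hp : 1 ≤ p) (n : ℕ) {r : ℝ} (hr : 0 < r) : 0 ≤ Wr p n r := by
  unfold Wr
  have : 0 ≤ p := by linarith
  positivity

theorem Wr_mul {p : ℝ} (n : ℕ) {r : ℝ} (hr : 0 < r) (s : ℝ) :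
    r ^ s * Wr p n r = p * (r ^ ((n : ℝ) + p - 1 + s) * Real.exp (-r ^ p)) := by
  unfold Wr
  rw [Real.rpow_add hr]
  ring

theorem mom_int {p : ℝ} (hp : 1 ≤ p) (n : ℕ) (hn : 1 ≤ n) (s : ℝ) (hs : 0 ≤ s) :
    IntegrableOn (fun r => r ^ s * Wr p n r) (Ioi 0) := by
  have hn' : (1 : ℝ) ≤ n := by exact_mod_cast hn
  have h1 : IntegrableOn (fun r : ℝ => p * (r ^ ((n : ℝ) + p - 1 + s) * Real.exp (-r ^ p))) (Ioi 0) :=
    (integrableOn_rpow_mul_exp_neg_rpow (by linarith) (by linarith)).const_mul p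
  refine h1.congr_fun (fun r hr => ?_) measurableSet_Ioi
  exact (Wr_mul n hr s).symm

theorem mom_val {p : ℝ} (hp : 1 ≤ p) (n : ℕ) (hn : 1 ≤ n) (s : ℝ) (hs : 0 ≤ s) :
    ∫ r in Ioi 0, r ^ s * Wr p n r = Real.Gamma ((n : ℝ) / p + 1 + s / p) := by
  have hn' : (1 : ℝ) ≤ n := by exact_mod_cast hn
  have hp0 : 0 < p := by linarith
  have h1 : ∫ r in Ioi (0 : ℝ), r ^ s * Wr p n r =
      ∫ r in Ioi (0 : ℝ), p * (r ^ ((n : ℝ) + p - 1 + s) * Real.exp (-r ^ p)) :=
    setIntegral_congr_fun measurableSet_Ioi fun r hr => Wr_mul n hr s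
  rw [h1, integral_const_mul, integral_rpow_mul_exp_neg_rpow hp0 (by linarith), ← mul_assoc,
    mul_one_div_cancel hp0.ne', one_mul]
  congr 1
  field_simp
  ring

theorem conv {p : ℝ} (hp : 1 ≤ p) (n : ℕ) {f : ℝ → ℝ} (hf : ∀ r, 0 < r → 0 ≤ f r)
    (hint : IntegrableOn (fun r => f r * Wr p n r) (Ioi 0)) :
    ∫⁻ r in Ioi (0 : ℝ), ENNReal.ofReal (f r) * ENNReal.ofReal (Wr p n r) =
      ENNReal.ofReal (∫ r in Ioi 0, f r * Wr p n r) := by
  rw [ofReal_integral_eq_lintegral_ofReal hint ?_]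
  · refine setLIntegral_congr_fun measurableSet_Ioi fun r hr => ?_
    exact (ENNReal.ofReal_mul (hf r hr)).symm
  · filter_upwards [ae_restrict_mem measurableSet_Ioi] with r hr
    exact mul_nonneg (hf r hr) (Wr_nonneg hp n hr)

theorem gam : S_GAM := by
  intro p n hp hn
  have hn' : (1 : ℝ) ≤ n := by exact_mod_cast hn
  have hp0 : 0 < p := by linarith
  set a : ℝ := (n : ℝ) / p + 1 with ha
  have ha1 : 1 ≤ a := by
    have : 0 ≤ (n : ℝ) / p := by positivity
    linarith
  have ha0 : 0 < a := by linarith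
  set B : ℝ := Real.Gamma a with hB
  have hB0 : 0 < B := Real.Gamma_pos_of_pos ha0
  set R : ℝ := a ^ (1 / p) with hR
  have hR0 : 0 < R := Real.rpow_pos_of_pos ha0 _
  have hRp : R ^ p = a := by
    rw [hR, ← Real.rpow_mul ha0.le, one_div_mul_cancel hp0.ne', Real.rpow_one]
  -- moments
  have hM0 : ∫ r in Ioi (0 : ℝ), r ^ (0 : ℝ) * Wr p n r = B := by
    rw [mom_val hp n hn 0 le_rfl, zero_div, add_zero]
  have hM1 : ∫ r in Ioi (0 : ℝ), r ^ p * Wr p n r = a * B := by
    rw [mom_val hp n hn p hp0.le, div_self hp0.ne', ← ha, Real.Gamma_add_one ha0.ne']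
  have hM2 : ∫ r in Ioi (0 : ℝ), r ^ (2 * p) * Wr p n r = (a + 1) * (a * B) := by
    rw [mom_val hp n hn (2 * p) (by linarith), mul_div_cancel_right₀ _ hp0.ne', ← ha,
      show a + 2 = (a + 1) + 1 by ring, Real.Gamma_add_one (by linarith), Real.Gamma_add_one ha0.ne']
  have i0 := mom_int hp n hn 0 le_rfl
  have i1 := mom_int hp n hn 1 zero_le_one
  have i2 := mom_int hp n hn 2 zero_le_two
  have ip := mom_int hp n hn p hp0.le
  have ipp := mom_int hp n hn (2 * p) (by linarith)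
  -- (r - R)^2
  have iA : IntegrableOn (fun r => (r - R) ^ 2 * Wr p n r) (Ioi 0) := by
    have h1 := (i2.sub (i1.const_mul (2 * R))).add (i0.const_mul (R ^ 2))
    refine IntegrableOn.congr_fun h1 (fun r hr => ?_) measurableSet_Ioi
    simp only [Pi.add_apply, Pi.sub_apply, Real.rpow_zero, Real.rpow_one, Real.rpow_two]
    ring
  have iB : IntegrableOn (fun r => R ^ 2 * ((r ^ p) / a - 1) ^ 2 * Wr p n r) (Ioi 0) ∧
      ∫ r in Ioi (0 : ℝ), R ^ 2 * ((r ^ p) / a - 1) ^ 2 * Wr p n r = R ^ 2 * B / a := by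
    have h1 := ((ipp.const_mul (R ^ 2 / a ^ 2)).sub (ip.const_mul (2 * R ^ 2 / a))).add (i0.const_mul (R ^ 2))
    have h2 : ∀ r ∈ Ioi (0 : ℝ), R ^ 2 / a ^ 2 * (r ^ (2 * p) * Wr p n r) -
        2 * R ^ 2 / a * (r ^ p * Wr p n r) + R ^ 2 * (r ^ (0 : ℝ) * Wr p n r) =
        R ^ 2 * ((r ^ p) / a - 1) ^ 2 * Wr p n r := by
      intro r hr
      have h3 : r ^ (2 * p) = (r ^ p) ^ 2 := by
        rw [mul_comm, Real.rpow_mul (le_of_lt hr), Real.rpow_two]
      rw [h3, Real.rpow_zero]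
      field_simp
      ring
    refine ⟨IntegrableOn.congr_fun h1 h2 measurableSet_Ioi, ?_⟩
    rw [← setIntegral_congr_fun measurableSet_Ioi h2]
    have e1 := integral_add ((ipp.const_mul (R ^ 2 / a ^ 2)).sub (ip.const_mul (2 * R ^ 2 / a))) (i0.const_mul (R ^ 2))
    have e2 := integral_sub (ipp.const_mul (R ^ 2 / a ^ 2)) (ip.const_mul (2 * R ^ 2 / a))
    simp only [Pi.sub_apply] at e1 e2
    rw [e1, e2, integral_const_mul, integral_const_mul, integral_const_mul, hM0, hM1, hM2]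
    field_simp
    ring
  have hpt : ∀ r ∈ Ioi (0 : ℝ), (r - R) ^ 2 ≤ R ^ 2 * ((r ^ p) / a - 1) ^ 2 := by
    intro r hr
    have hr0 : 0 < r := hr
    set x : ℝ := r / R with hx
    have hx0 : 0 < x := div_pos hr0 hR0
    have h1 : r = R * x := by rw [hx]; field_simp
    have h2 : r ^ p / a = x ^ p := by
      rw [hx, Real.div_rpow hr0.le hR0.le, hRp]
    rw [h2, h1, show (R * x - R) ^ 2 = R ^ 2 * (x - 1) ^ 2 by ring]
    apply mul_le_mul_of_nonneg_left _ (by positivity)
    rcases le_total 1 x with h | h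
    · have h3 : x ≤ x ^ p := by
        conv_lhs => rw [← Real.rpow_one x]
        exact Real.rpow_le_rpow_of_exponent_le h hp
      nlinarith
    · have h3 : x ^ p ≤ x := by
        conv_rhs => rw [← Real.rpow_one x]
        exact Real.rpow_le_rpow_of_exponent_ge hx0 h hp
      nlinarith
  have hA : ∫ r in Ioi (0 : ℝ), (r - R) ^ 2 * Wr p n r ≤ R ^ 2 * B / a := by
    rw [← iB.2]
    apply setIntegral_mono_on iA iB.1 measurableSet_Ioi
    intro r hr
    exact mul_le_mul_of_nonneg_right (hpt r hr) (Wr_nonneg hp n hr)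
  have hC : ∫ r in Ioi (0 : ℝ), r ^ 2 * Wr p n r ≤ 4 * R ^ 2 * B := by
    have h1 : IntegrableOn (fun r => 2 * ((r - R) ^ 2 * Wr p n r) + 2 * R ^ 2 * (r ^ (0 : ℝ) * Wr p n r)) (Ioi 0) :=
      (iA.const_mul 2).add (i0.const_mul (2 * R ^ 2))
    have h2 : ∫ r in Ioi (0 : ℝ), r ^ 2 * Wr p n r ≤
        ∫ r in Ioi (0 : ℝ), (2 * ((r - R) ^ 2 * Wr p n r) + 2 * R ^ 2 * (r ^ (0 : ℝ) * Wr p n r)) := by
      apply setIntegral_mono_on _ h1 measurableSet_Ioi
      · intro r hr
        have h3 := Wr_nonneg hp n hr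
        rw [Real.rpow_zero]
        have h4 : r ^ 2 ≤ 2 * (r - R) ^ 2 + 2 * R ^ 2 := by nlinarith [sq_nonneg (r - 2 * R)]
        nlinarith [mul_le_mul_of_nonneg_right h4 h3]
      · refine i2.congr_fun (fun r _ => ?_) measurableSet_Ioi
        simp only [Real.rpow_two]
    rw [integral_add (iA.const_mul 2) (i0.const_mul (2 * R ^ 2)), integral_const_mul, integral_const_mul,
      hM0] at h2
    have h5 : R ^ 2 * B / a ≤ R ^ 2 * B := div_le_self (by positivity) ha1
    linarith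
  have hD : R ^ 2 * B / 2 ≤ ∫ r in Ioi (0 : ℝ), r ^ 2 * Wr p n r := by
    have i2' : IntegrableOn (fun r => r ^ 2 * Wr p n r) (Ioi 0) := by
      refine i2.congr_fun (fun r _ => ?_) measurableSet_Ioi
      simp only [Real.rpow_two]
    rcases le_total p 2 with hp2 | hp2
    · have h1 : IntegrableOn (fun r => (R ^ 2 * (2 / p) / a) * (r ^ p * Wr p n r) +
          (R ^ 2 * (1 - 2 / p)) * (r ^ (0 : ℝ) * Wr p n r)) (Ioi 0) :=
        (ip.const_mul _).add (i0.const_mul _)
      have h2 : ∫ r in Ioi (0 : ℝ), ((R ^ 2 * (2 / p) / a) * (r ^ p * Wr p n r) +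
          (R ^ 2 * (1 - 2 / p)) * (r ^ (0 : ℝ) * Wr p n r)) ≤ ∫ r in Ioi (0 : ℝ), r ^ 2 * Wr p n r := by
        apply setIntegral_mono_on h1 i2' measurableSet_Ioi
        intro r hr
        have hr0 : 0 < r := hr
        have h3 := Wr_nonneg hp n hr
        set x : ℝ := r / R with hx
        have hx0 : 0 < x := div_pos hr0 hR0
        have h4 : r = R * x := by rw [hx]; field_simp
        have h5 : r ^ p / a = x ^ p := by
          rw [hx, Real.div_rpow hr0.le hR0.le, hRp]
        have h6 : 1 + (2 / p) * (x ^ p - 1) ≤ x ^ 2 := by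
          have h7 := one_add_mul_self_le_rpow_one_add (s := x ^ p - 1)
            (by have := Real.rpow_pos_of_pos hx0 p; linarith) (p := 2 / p) (by rw [le_div_iff₀ hp0]; linarith)
          rw [add_sub_cancel, ← Real.rpow_mul hx0.le, mul_div_cancel₀ _ hp0.ne', Real.rpow_two] at h7
          exact h7
        have h8 : (R ^ 2 * (2 / p) / a) * (r ^ p * Wr p n r) +
          (R ^ 2 * (1 - 2 / p)) * (r ^ (0 : ℝ) * Wr p n r) =
            R ^ 2 * (1 + (2 / p) * (r ^ p / a - 1)) * Wr p n r := by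
          rw [Real.rpow_zero]
          ring
        have h10 : r ^ 2 = R ^ 2 * x ^ 2 := by
          calc r ^ 2 = (R * x) ^ 2 := by rw [← h4]
            _ = R ^ 2 * x ^ 2 := by ring
        rw [h8, h5, h10]
        exact mul_le_mul_of_nonneg_right (mul_le_mul_of_nonneg_left h6 (by positivity)) h3
      rw [integral_add (ip.const_mul _) (i0.const_mul _), integral_const_mul, integral_const_mul,
        hM0, hM1] at h2
      have h9 : R ^ 2 * (2 / p) / a * (a * B) + R ^ 2 * (1 - 2 / p) * B = R ^ 2 * B := by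
        field_simp
        ring
      rw [h9] at h2
      have : 0 ≤ R ^ 2 * B := by positivity
      linarith
    · have h1 : IntegrableOn (fun r => (R ^ 2 / a) * (r ^ p * Wr p n r) -
          (R ^ 2 / (4 * a ^ 2)) * (r ^ (2 * p) * Wr p n r)) (Ioi 0) :=
        (ip.const_mul _).sub (ipp.const_mul _)
      have h2 : ∫ r in Ioi (0 : ℝ), ((R ^ 2 / a) * (r ^ p * Wr p n r) -
          (R ^ 2 / (4 * a ^ 2)) * (r ^ (2 * p) * Wr p n r)) ≤ ∫ r in Ioi (0 : ℝ), r ^ 2 * Wr p n r := by
        apply setIntegral_mono_on h1 i2' measurableSet_Ioi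
        intro r hr
        have hr0 : 0 < r := hr
        have h3 := Wr_nonneg hp n hr
        set x : ℝ := r / R with hx
        have hx0 : 0 < x := div_pos hr0 hR0
        have h4 : r = R * x := by rw [hx]; field_simp
        have h5 : r ^ p / a = x ^ p := by
          rw [hx, Real.div_rpow hr0.le hR0.le, hRp]
        have h6 : x ^ p - (x ^ p) ^ 2 / 4 ≤ x ^ 2 := by
          rcases le_total 1 x with h | h
          · have h7 : 1 ≤ x ^ 2 := one_le_pow₀ h
            nlinarith [sq_nonneg (x ^ p / 2 - 1)]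
          · have h7 : x ^ p ≤ x ^ 2 := by
              rw [← Real.rpow_two]
              exact Real.rpow_le_rpow_of_exponent_ge hx0 h hp2
            nlinarith [sq_nonneg (x ^ p)]
        have h8 : (R ^ 2 / a) * (r ^ p * Wr p n r) -
          (R ^ 2 / (4 * a ^ 2)) * (r ^ (2 * p) * Wr p n r) =
            R ^ 2 * (r ^ p / a - (r ^ p / a) ^ 2 / 4) * Wr p n r := by
          have h9 : r ^ (2 * p) = (r ^ p) ^ 2 := by
            rw [mul_comm, Real.rpow_mul hr0.le, Real.rpow_two]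
          rw [h9]
          field_simp
        have h10 : r ^ 2 = R ^ 2 * x ^ 2 := by
          calc r ^ 2 = (R * x) ^ 2 := by rw [← h4]
            _ = R ^ 2 * x ^ 2 := by ring
        rw [h8, h5, h10]
        exact mul_le_mul_of_nonneg_right (mul_le_mul_of_nonneg_left h6 (by positivity)) h3
      rw [integral_sub (ip.const_mul _) (ipp.const_mul _), integral_const_mul, integral_const_mul,
        hM1, hM2] at h2
      have h9 : R ^ 2 / a * (a * B) - R ^ 2 / (4 * a ^ 2) * ((a + 1) * (a * B)) =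
          R ^ 2 * B * (3 / 4 - 1 / (4 * a)) := by
        field_simp
        ring
      rw [h9] at h2
      have h10 : 1 / (4 * a) ≤ 1 / 4 := by
        apply one_div_le_one_div_of_le (by norm_num)
        linarith
      have h11 : 0 ≤ R ^ 2 * B := by positivity
      nlinarith
  have i2' : IntegrableOn (fun r => r ^ 2 * Wr p n r) (Ioi 0) := by
    refine i2.congr_fun (fun r _ => ?_) measurableSet_Ioi
    simp only [Real.rpow_two]
  refine ⟨R, B, hR0, hB0, ?_, ?_, ?_, ?_⟩
  · have h1 := conv hp n (f := fun r => r ^ (0 : ℝ)) (fun r _ => by rw [Real.rpow_zero]; norm_num) i0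
    rw [hM0] at h1
    rw [← h1]
    refine setLIntegral_congr_fun measurableSet_Ioi fun r _ => ?_
    simp only [Real.rpow_zero, ENNReal.ofReal_one, one_mul]
    rfl
  · have h1 := conv hp n (f := fun r => (r - R) ^ 2) (fun r _ => sq_nonneg _) iA
    refine h1.le.trans (ENNReal.ofReal_le_ofReal (hA.trans ?_))
    have h2 : R ^ 2 * B / a = 1 / a * (R ^ 2 * B) := by ring
    have h3 : p / n * R ^ 2 * B = p / n * (R ^ 2 * B) := by ring
    rw [h2, h3]
    apply mul_le_mul_of_nonneg_right _ (by positivity)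
    rw [div_le_div_iff₀ ha0 (by linarith), one_mul, ha, mul_add, mul_div_cancel₀ _ hp0.ne']
    linarith
  · have h1 := conv hp n (f := fun r => r ^ 2) (fun r _ => sq_nonneg _) i2'
    exact h1.le.trans (ENNReal.ofReal_le_ofReal hC)
  · have h1 := conv hp n (f := fun r => r ^ 2) (fun r _ => sq_nonneg _) i2'
    exact (ENNReal.ofReal_le_ofReal hD).trans h1.ge

end Pool.Agent.Y388.PV
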