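import Mathlib
import Pool.Agent.Y506.PV.Stm

set_option autoImplicit false

namespace Pool.Agent.Y388.PV

open Pool.Agent.Y506.PV
open Pool.Agent.W695.KH (Eu)
open scoped InnerProductSpace

theorem cmp : S_CMP := by
  intro m A hA
  have hker : Module.finrank ℝ (LinearMap.ker A) = 1 := by
    have h1 := A.finrank_range_add_finrank_ker
    rw [LinearMap.range_eq_top.2 hA, finrank_top, finrank_euclideanSpace_fin, finrank_euclideanSpace_fin] at h1
    omega
  obtain ⟨⟨e, heK⟩, he0, hspan⟩ := finrank_eq_one_iff'.1 hker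
  have he : e ≠ 0 := fun h => he0 (Subtype.ext h)
  let f : Eu (Fin (m + 1)) →ₗ[ℝ] Eu (Fin (m + 1)) :=
    { toFun := fun x => WithLp.toLp 2 (Fin.cons ⟪e, x⟫_ℝ (fun i => A x i) : Fin (m + 1) → ℝ)
      map_add' := by
        intro x y
        ext i
        refine Fin.cases ?_ (fun j => ?_) i
        · simp [inner_add_right]
        · simp
      map_smul' := by
        intro c x
        ext i
        refine Fin.cases ?_ (fun j => ?_) i
        · simp [inner_smul_right]
        · simp }
  have hf0 : ∀ x, f x 0 = ⟪e, x⟫_ℝ := fun x => rfl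
  have hfs : ∀ x (j : Fin m), f x j.succ = A x j := fun x j => rfl
  have hinj : Function.Injective f := by
    rw [injective_iff_map_eq_zero]
    intro x hx
    have h1 : A x = 0 := by
      ext j
      rw [← hfs, hx]
      rfl
    obtain ⟨c, hc⟩ := hspan ⟨x, h1⟩
    have hc' : c • e = x := congrArg Subtype.val hc
    have h2 : ⟪e, x⟫_ℝ = 0 := by
      rw [← hf0, hx]
      rfl
    rw [← hc', inner_smul_right, real_inner_self_eq_norm_sq] at h2
    have h3 : ‖e‖ ^ 2 ≠ 0 := pow_ne_zero 2 (norm_ne_zero_iff.2 he)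
    have h4 : c = 0 := by
      rcases mul_eq_zero.1 h2 with h | h
      · exact h
      · exact absurd h h3
    rw [← hc', h4, zero_smul]
  refine ⟨(LinearEquiv.ofInjectiveEndo f hinj).toContinuousLinearEquiv, fun x => ?_⟩
  ext j
  rfl

theorem fac : S_FAC := by
  intro m n A hA hnm
  have hker : 0 < Module.finrank ℝ (LinearMap.ker A) := by
    have h1 := A.finrank_range_add_finrank_ker
    rw [LinearMap.range_eq_top.2 hA, finrank_top, finrank_euclideanSpace_fin, finrank_euclideanSpace_fin] at h1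
    omega
  have hnt : Nontrivial (LinearMap.ker A) := Module.nontrivial_of_finrank_pos hker
  obtain ⟨⟨e, heK⟩, he0⟩ := exists_ne (0 : LinearMap.ker A)
  have he : e ≠ 0 := fun h => he0 (Subtype.ext h)
  have hAe : A e = 0 := heK
  -- the quotient by the line
  set L : Submodule ℝ (Eu (Fin (m + 1))) := Submodule.span ℝ {e} with hL
  have hLd : Module.finrank ℝ L = 1 := finrank_span_singleton he
  have hQ : Module.finrank ℝ (Eu (Fin (m + 1)) ⧸ L) = Module.finrank ℝ (Eu (Fin m)) := by
    have h1 := L.finrank_quotient_add_finrank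
    rw [hLd, finrank_euclideanSpace_fin] at h1
    rw [finrank_euclideanSpace_fin]
    omega
  let I : (Eu (Fin (m + 1)) ⧸ L) ≃ₗ[ℝ] Eu (Fin m) := LinearEquiv.ofFinrankEq _ _ hQ
  have hLA : L ≤ LinearMap.ker A := by
    rw [hL, Submodule.span_singleton_le_iff_mem]
    exact heK
  refine ⟨I.toLinearMap ∘ₗ L.mkQ, (L.liftQ A hLA) ∘ₗ I.symm.toLinearMap, ?_, ?_, ?_⟩
  · exact I.surjective.comp L.mkQ_surjective
  · intro y
    obtain ⟨x, rfl⟩ := hA y
    refine ⟨I (L.mkQ x), ?_⟩
    rw [LinearMap.comp_apply, LinearEquiv.coe_coe, LinearEquiv.symm_apply_apply]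
    rfl
  · intro x
    rw [LinearMap.comp_apply, LinearMap.comp_apply, LinearEquiv.coe_coe, LinearEquiv.coe_coe,
      LinearEquiv.symm_apply_apply]
    rfl

end Pool.Agent.Y388.PV
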